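import Mathlib

set_option autoImplicit false

/-! Coherent algebras, coherent closure and coherent rank of a graph, and the lower bound of the rank
by the number of different entries of a matrix in the coherent closure. -/

namespace Q119.CR

open Matrix

/-- A coherent algebra on the finite set `X`: a linear subspace of the complex matrices on `X` which
contains the identity matrix and the all-ones matrix and is closed under transposition, under the
ordinary product and under the entrywise product. -/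
structure IsCoherent {X : Type*} [Fintype X] [DecidableEq X] (𝒜 : Submodule ℂ (Matrix X X ℂ)) :
    Prop where
  one_mem : (1 : Matrix X X ℂ) ∈ 𝒜
  allOne_mem : (Matrix.of fun _ _ => (1 : ℂ)) ∈ 𝒜
  transpose_mem : ∀ M ∈ 𝒜, Mᵀ ∈ 𝒜
  mul_mem : ∀ M ∈ 𝒜, ∀ N ∈ 𝒜, M * N ∈ 𝒜
  hadamard_mem : ∀ M ∈ 𝒜, ∀ N ∈ 𝒜, Matrix.hadamard M N ∈ 𝒜

/-- The coherent closure of a graph: the smallest coherent algebra which contains its adjacency
matrix (the intersection of all of these). -/
def coherentClosure {X : Type*} [Fintype X] [DecidableEq X] (G : SimpleGraph X)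
    [DecidableRel G.Adj] : Submodule ℂ (Matrix X X ℂ) :=
  sInf {𝒜 | IsCoherent 𝒜 ∧ G.adjMatrix ℂ ∈ 𝒜}

/-- The coherent rank of a graph: the dimension of its coherent closure. -/
noncomputable def coherentRank {X : Type*} [Fintype X] [DecidableEq X] (G : SimpleGraph X)
    [DecidableRel G.Adj] : ℕ :=
  Module.finrank ℂ (coherentClosure G)

section
variable {X : Type*} [Fintype X] [DecidableEq X]

theorem isCoherent_closure (G : SimpleGraph X) [DecidableRel G.Adj] :
    IsCoherent (coherentClosure G) ∧ G.adjMatrix ℂ ∈ coherentClosure G := by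
  unfold coherentClosure
  refine ⟨⟨?_, ?_, ?_, ?_, ?_⟩, ?_⟩
  · rw [Submodule.mem_sInf]; rintro 𝒜 ⟨h, -⟩; exact h.one_mem
  · rw [Submodule.mem_sInf]; rintro 𝒜 ⟨h, -⟩; exact h.allOne_mem
  · intro M hM; rw [Submodule.mem_sInf] at hM ⊢; rintro 𝒜 h; exact h.1.transpose_mem M (hM 𝒜 h)
  · intro M hM N hN; rw [Submodule.mem_sInf] at hM hN ⊢; rintro 𝒜 h
    exact h.1.mul_mem M (hM 𝒜 h) N (hN 𝒜 h)
  · intro M hM N hN; rw [Submodule.mem_sInf] at hM hN ⊢; rintro 𝒜 h
    exact h.1.hadamard_mem M (hM 𝒜 h) N (hN 𝒜 h)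
  · rw [Submodule.mem_sInf]; rintro 𝒜 ⟨-, h⟩; exact h

/-- entrywise powers -/
def hpow (M : Matrix X X ℂ) (i : ℕ) : Matrix X X ℂ := Matrix.of fun x y => M x y ^ i

theorem hpow_mem {𝒜 : Submodule ℂ (Matrix X X ℂ)} (h : IsCoherent 𝒜) {M : Matrix X X ℂ}
    (hM : M ∈ 𝒜) (i : ℕ) : hpow M i ∈ 𝒜 := by
  induction i with
  | zero =>
    have : hpow M 0 = Matrix.of fun _ _ => (1 : ℂ) := by ext x y; simp [hpow]
    rw [this]; exact h.allOne_mem
  | succ i ih =>
    have : hpow M (i + 1) = Matrix.hadamard (hpow M i) M := by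
      ext x y; simp [hpow, Matrix.hadamard, pow_succ]
    rw [this]; exact h.hadamard_mem _ ih _ hM

/-- If some matrix in a coherent algebra has `k` different entries then the dimension of the algebra
is at least `k`. -/
theorem le_finrank {𝒜 : Submodule ℂ (Matrix X X ℂ)} (h : IsCoherent 𝒜) {M : Matrix X X ℂ}
    (hM : M ∈ 𝒜) (k : ℕ) (e : Fin k → X × X)
    (he : Function.Injective fun i => M (e i).1 (e i).2) : k ≤ Module.finrank ℂ 𝒜 := by
  classical
  let p : Fin k → 𝒜 := fun i => ⟨hpow M i, hpow_mem h hM i⟩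
  let ev : 𝒜 →ₗ[ℂ] (Fin k → ℂ) :=
    { toFun := fun N j => (N : Matrix X X ℂ) (e j).1 (e j).2
      map_add' := by intro a b; rfl
      map_smul' := by intro a b; rfl }
  have hv : (Matrix.vandermonde fun i => M (e i).1 (e i).2).det ≠ 0 :=
    Matrix.det_vandermonde_ne_zero_iff.mpr he
  have hv' : (Matrix.vandermonde fun i => M (e i).1 (e i).2)ᵀ.det ≠ 0 := by
    rwa [Matrix.det_transpose]
  have hli : LinearIndependent ℂ (fun i => ev (p i)) := by
    have h1 := Matrix.linearIndependent_rows_of_det_ne_zero hv'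
    have h2 : (fun i => ev (p i)) = (Matrix.vandermonde fun i => M (e i).1 (e i).2)ᵀ.row := by
      funext i j
      show (hpow M i) (e j).1 (e j).2 = _
      simp [hpow, Matrix.vandermonde, Matrix.row]
    rw [h2]; exact h1
  have hlp : LinearIndependent ℂ p := LinearIndependent.of_comp ev hli
  have := hlp.fintype_card_le_finrank
  simpa using this

end

end Q119.CR
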