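import Mathlib

set_option autoImplicit false

/-! An abstract graph with two kinds of cells and its square. -/

namespace Q119.CR

open Finset

/-- The counting properties of the two kinds of cells. -/
structure Cells (m : ℤ) (L X J W F : Type) [Fintype L] [Fintype X] [Fintype J] [Fintype W]
    [DecidableEq L] [DecidableEq X] [DecidableEq J] [DecidableEq W] [DecidableEq F]
    (h : J → X → ZMod 2) (g : J → L → W → ZMod 2) (f : J → W → F) : Prop where
  mpos : 0 < m
  cardX : (Fintype.card X : ℤ) = 4 * m
  cardL : (Fintype.card L : ℤ) = 4 * m + 5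
  cardJ : (Fintype.card J : ℤ) = 4 * m - 1
  H1 : ∀ i s, ((univ.filter fun x => h i x = s).card : ℤ) = 2 * m
  H2 : ∀ i j, i ≠ j → ∀ s t, ((univ.filter fun x => h i x = s ∧ h j x = t).card : ℤ) = m
  H3 : ∀ x x', x ≠ x' → ((univ.filter fun i => h i x = h i x').card : ℤ) = 2 * m - 1
  G1 : ∀ i l s, ((univ.filter fun w => g i l w = s).card : ℤ) = 8 * m
  G2 : ∀ i l l', l ≠ l' → ∀ s t,
    ((univ.filter fun w => g i l w = s ∧ g i l' w = t).card : ℤ) = 4 * m
  F1 : ∀ i, (∀ j w, ((univ.filter fun w' => f i w' = f j w).card : ℤ) = 4 * m)
  GF : ∀ i j, i ≠ j → ∀ l s k w,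
    ((univ.filter fun w' => g j l w' = s ∧ f i w' = f k w).card : ℤ) = 2 * m
  FF : ∀ i j, i ≠ j → ∀ k w w',
    ((univ.filter fun z => f i z = f k w ∧ f j z = f k w').card : ℤ) = m
  T : ∀ i w w', w ≠ w' →
    2 * ((univ.filter fun j => j ≠ i ∧ f j w = f j w').card : ℤ)
      + ((univ.filter fun l => g i l w = g i l w').card : ℤ) = 4 * m + 1

section
variable {m : ℤ} {L X J W F : Type} [Fintype L] [Fintype X] [Fintype J] [Fintype W]
    [DecidableEq L] [DecidableEq X] [DecidableEq J] [DecidableEq W] [DecidableEq F]
    (h : J → X → ZMod 2) (g : J → L → W → ZMod 2) (f : J → W → F)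

/-- The adjacency function. -/
def adj : (L × X) ⊕ (J × W) → (L × X) ⊕ (J × W) → ℤ
  | .inl (l, _), .inl (l', _) => if l = l' then 0 else 1
  | .inl (l, x), .inr (i, w) => if h i x = g i l w then 1 else 0
  | .inr (i, w), .inl (l, x) => if h i x = g i l w then 1 else 0
  | .inr (i, w), .inr (j, w') => if i = j then 0 else if f j w = f i w' then 1 else 0

/-- The weight: two on the vertices of the first kind and one on those of the second kind. -/
def wt : (L × X) ⊕ (J × W) → ℤ
  | .inl _ => 2
  | .inr _ => 1

theorem sum_mul_ite {α : Type} [Fintype α] (p q : α → Prop) [DecidablePred p] [DecidablePred q] :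
    ∑ w, (if p w then (1 : ℤ) else 0) * (if q w then (1 : ℤ) else 0)
      = ((univ.filter fun w => p w ∧ q w).card : ℤ) := by
  rw [Finset.card_filter]
  push_cast
  refine Finset.sum_congr rfl fun w _ => ?_
  by_cases hp : p w <;> by_cases hq : q w <;> simp [hp, hq]

theorem sum_ite_card {α : Type} [Fintype α] (p : α → Prop) [DecidablePred p] (c : ℤ) :
    ∑ w, (if p w then c else 0) = c * ((univ.filter fun w => p w).card : ℤ) := by
  rw [← Finset.sum_filter, Finset.sum_const, nsmul_eq_mul]; ring

theorem card_ne {α : Type} [Fintype α] [DecidableEq α] (a : α) :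
    ((univ.filter fun k => k ≠ a).card : ℤ) = (Fintype.card α : ℤ) - 1 := by
  have : (univ.filter fun k : α => k ≠ a) = univ.erase a := by ext; simp
  rw [this, Finset.card_erase_of_mem (mem_univ a)]
  have hpos : 0 < Fintype.card α := Fintype.card_pos_iff.mpr ⟨a⟩
  rw [Finset.card_univ]; omega

theorem card_ne_ne {α : Type} [Fintype α] [DecidableEq α] (a b : α) (hab : a ≠ b) :
    ((univ.filter fun k => k ≠ a ∧ k ≠ b).card : ℤ) = (Fintype.card α : ℤ) - 2 := by
  have : (univ.filter fun k : α => k ≠ a ∧ k ≠ b) = (univ.erase a).erase b := by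
    ext; simp [and_comm]
  rw [this, Finset.card_erase_of_mem (by simp [hab.symm]),
    Finset.card_erase_of_mem (mem_univ a), Finset.card_univ]
  have hpos : 2 ≤ Fintype.card α := by
    have := Finset.card_le_univ ({a, b} : Finset α)
    rwa [Finset.card_pair hab] at this
  omega

theorem card_eq_split {α : Type} [Fintype α] [DecidableEq α] (p : α → ZMod 2) (s t : ZMod 2) :
    ((univ.filter fun x => p x = s ∧ p x = t).card : ℤ)
      = if s = t then ((univ.filter fun x => p x = s).card : ℤ) else 0 := by
  by_cases hst : s = t
  · subst hst; simp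
  · rw [if_neg hst]
    have : (univ.filter fun x => p x = s ∧ p x = t) = ∅ := by
      ext x; simp only [mem_filter, mem_univ, true_and, Finset.notMem_empty, iff_false]
      rintro ⟨h1, h2⟩; exact hst (h1.symm.trans h2)
    rw [this]; simp

theorem card_eq_split' {α β : Type} [Fintype α] [DecidableEq β] (p : α → β) (s t : β) :
    ((univ.filter fun x => p x = s ∧ p x = t).card : ℤ)
      = if s = t then ((univ.filter fun x => p x = s).card : ℤ) else 0 := by
  by_cases hst : s = t
  · subst hst; simp
  · rw [if_neg hst]
    have : (univ.filter fun x => p x = s ∧ p x = t) = ∅ := by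
      ext x; simp only [mem_filter, mem_univ, true_and, Finset.notMem_empty, iff_false]
      rintro ⟨h1, h2⟩; exact hst (h1.symm.trans h2)
    rw [this]; simp

variable (hc : Cells m L X J W F h g f)
include hc

/-- Two vertices of the second kind: the part of the square which runs over the second kind. -/
theorem sq22 (i j : J) (w w' : W) :
    ∑ z : J × W, adj h g f (.inr (i, w)) (.inr z) * adj h g f (.inr z) (.inr (j, w'))
      = if i = j then 4 * m * ((univ.filter fun k => k ≠ i ∧ f k w = f k w').card : ℤ)
        else m * (4 * m - 3) := by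
  rw [Fintype.sum_prod_type]
  by_cases hij : i = j
  · subst hij
    rw [if_pos rfl, ← sum_ite_card]
    refine Finset.sum_congr rfl fun k _ => ?_
    by_cases hk : k = i
    · subst hk; simp [adj]
    · have hk' : ¬ i = k := fun h => hk h.symm
      simp only [adj, if_neg hk, if_neg hk']
      rw [sum_mul_ite]
      have e1 : (univ.filter fun z => f k w = f i z ∧ f i z = f k w')
          = univ.filter fun z => f i z = f k w ∧ f i z = f k w' := by
        ext z; simp [eq_comm]
      rw [e1, card_eq_split', hc.F1]
      by_cases hf : f k w = f k w'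
      · simp [hk, hf]
      · simp [hf]
  · rw [if_neg hij]
    have e : ∀ k, ∑ z, adj h g f (.inr (i, w)) (.inr (k, z)) * adj h g f (.inr (k, z)) (.inr (j, w'))
        = if k ≠ i ∧ k ≠ j then m else 0 := by
      intro k
      by_cases hk : k = i
      · subst hk; simp [adj]
      by_cases hk2 : k = j
      · subst hk2; simp [adj]
      have hk' : ¬ i = k := fun h => hk h.symm
      simp only [adj, if_neg hk2, if_neg hk']
      rw [sum_mul_ite]
      have e1 : (univ.filter fun z => f k w = f i z ∧ f j z = f k w')
          = univ.filter fun z => f i z = f k w ∧ f j z = f k w' := by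
        ext z; simp [eq_comm]
      rw [e1, hc.FF i j hij]
      simp [hk, hk2]
    rw [Finset.sum_congr rfl fun k _ => e k, sum_ite_card, card_ne_ne i j hij, hc.cardJ]
    ring

/-- Two vertices of the second kind: the part of the square which runs over the first kind. -/
theorem sq21 (i j : J) (w w' : W) :
    ∑ z : L × X, adj h g f (.inr (i, w)) (.inl z) * adj h g f (.inl z) (.inr (j, w'))
      = if i = j then 2 * m * ((univ.filter fun l => g i l w = g i l w').card : ℤ)
        else m * (4 * m + 5) := by
  rw [Fintype.sum_prod_type]
  by_cases hij : i = j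
  · subst hij
    rw [if_pos rfl, ← sum_ite_card]
    refine Finset.sum_congr rfl fun l _ => ?_
    simp only [adj]
    rw [sum_mul_ite, card_eq_split', hc.H1]
  · rw [if_neg hij]
    have e : ∀ l, ∑ x, adj h g f (.inr (i, w)) (.inl (l, x)) * adj h g f (.inl (l, x)) (.inr (j, w'))
        = m := by
      intro l
      simp only [adj]
      rw [sum_mul_ite, hc.H2 i j hij]
    rw [Finset.sum_congr rfl fun k _ => e k, Finset.sum_const, Finset.card_univ, nsmul_eq_mul,
      hc.cardL]
    ring

/-- The square of the adjacency matrix. -/
theorem sq (u v : (L × X) ⊕ (J × W)) :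
    ∑ z, adj h g f u z * adj h g f z v
      = (if u = v then 16 * m ^ 2 else 0) + 2 * m * (4 * m + 1) * (wt u * wt v) := by
  rw [Fintype.sum_sum_type]
  rcases u with ⟨l, x⟩ | ⟨i, w⟩ <;> rcases v with ⟨l', x'⟩ | ⟨j, w'⟩
  · -- both of the first kind
    have s1 : ∑ z : L × X, adj h g f (.inl (l, x)) (.inl z) * adj h g f (.inl z) (.inl (l', x'))
        = if l = l' then 4 * m * (4 * m + 4) else 4 * m * (4 * m + 3) := by
      rw [Fintype.sum_prod_type]
      have e : ∀ k, ∑ y : X, adj h g f (.inl (l, x)) (.inl (k, y))
            * adj h g f (.inl (k, y)) (.inl (l', x'))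
          = if k ≠ l ∧ k ≠ l' then 4 * m else 0 := by
        intro k
        simp only [adj]
        rw [Finset.sum_const, Finset.card_univ, nsmul_eq_mul, hc.cardX]
        by_cases h1 : k = l
        · subst h1; simp
        · have h1' : ¬ l = k := fun h => h1 h.symm
          by_cases h2 : k = l'
          · simp [h2]
          · simp [h1, h1', h2]
      rw [Finset.sum_congr rfl fun k _ => e k, sum_ite_card]
      by_cases hl : l = l'
      · subst hl
        have : (univ.filter fun k => k ≠ l ∧ k ≠ l) = univ.filter fun k => k ≠ l := by
          ext; simp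
        rw [this, card_ne, hc.cardL, if_pos rfl]; ring
      · rw [card_ne_ne l l' hl, hc.cardL, if_neg hl]; ring
    have s2 : ∑ z : J × W, adj h g f (.inl (l, x)) (.inr z) * adj h g f (.inr z) (.inl (l', x'))
        = if l = l' then (if x = x' then 8 * m * (4 * m - 1) else 8 * m * (2 * m - 1))
          else 4 * m * (4 * m - 1) := by
      rw [Fintype.sum_prod_type]
      by_cases hl : l = l'
      · subst hl
        rw [if_pos rfl]
        have e : ∀ i, ∑ w : W, adj h g f (.inl (l, x)) (.inr (i, w))
              * adj h g f (.inr (i, w)) (.inl (l, x'))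
            = if h i x = h i x' then 8 * m else 0 := by
          intro i
          simp only [adj]
          rw [sum_mul_ite]
          have e1 : (univ.filter fun w => h i x = g i l w ∧ h i x' = g i l w)
              = univ.filter fun w => g i l w = h i x ∧ g i l w = h i x' := by
            ext z; simp [eq_comm]
          rw [e1, card_eq_split', hc.G1]
        rw [Finset.sum_congr rfl fun k _ => e k, sum_ite_card]
        by_cases hx : x = x'
        · subst hx
          rw [if_pos rfl]
          simp only [Finset.filter_true, Finset.card_univ]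
          rw [hc.cardJ]
        · rw [if_neg hx, hc.H3 x x' hx]
      · rw [if_neg hl]
        have e : ∀ i, ∑ w : W, adj h g f (.inl (l, x)) (.inr (i, w))
              * adj h g f (.inr (i, w)) (.inl (l', x')) = 4 * m := by
          intro i
          simp only [adj]
          rw [sum_mul_ite]
          have e1 : (univ.filter fun w => h i x = g i l w ∧ h i x' = g i l' w)
              = univ.filter fun w => g i l w = h i x ∧ g i l' w = h i x' := by
            ext z; simp [eq_comm]
          rw [e1, hc.G2 i l l' hl]
        rw [Finset.sum_congr rfl fun k _ => e k, Finset.sum_const, Finset.card_univ, nsmul_eq_mul,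
          hc.cardJ]
        ring
    rw [s1, s2]
    by_cases hl : l = l'
    · subst hl
      by_cases hx : x = x'
      · subst hx; simp only [wt, if_true]; ring
      · have : ¬ ((Sum.inl (l, x) : (L × X) ⊕ (J × W)) = Sum.inl (l, x')) := by
          simp [hx]
        simp only [if_true, if_neg hx, if_neg this, wt]; ring
    · have : ¬ ((Sum.inl (l, x) : (L × X) ⊕ (J × W)) = Sum.inl (l', x')) := by
        simp [hl]
      simp only [if_neg hl, if_neg this, wt]; ring
  · -- first, second
    have s1 : ∑ z : L × X, adj h g f (.inl (l, x)) (.inl z) * adj h g f (.inl z) (.inr (j, w'))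
        = 2 * m * (4 * m + 4) := by
      rw [Fintype.sum_prod_type]
      have e : ∀ k, ∑ y : X, adj h g f (.inl (l, x)) (.inl (k, y))
            * adj h g f (.inl (k, y)) (.inr (j, w'))
          = if k ≠ l then 2 * m else 0 := by
        intro k
        simp only [adj]
        rw [← Finset.mul_sum]
        rw [sum_ite_card, hc.H1]
        by_cases h1 : k = l
        · subst h1; simp
        · have h1' : ¬ l = k := fun h => h1 h.symm
          simp [h1, h1']
      rw [Finset.sum_congr rfl fun k _ => e k, sum_ite_card, card_ne, hc.cardL]
      ring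
    have s2 : ∑ z : J × W, adj h g f (.inl (l, x)) (.inr z) * adj h g f (.inr z) (.inr (j, w'))
        = 2 * m * (4 * m - 2) := by
      rw [Fintype.sum_prod_type]
      have e : ∀ k, ∑ y : W, adj h g f (.inl (l, x)) (.inr (k, y))
            * adj h g f (.inr (k, y)) (.inr (j, w'))
          = if k ≠ j then 2 * m else 0 := by
        intro k
        by_cases hk : k = j
        · subst hk; simp [adj]
        · simp only [adj, if_neg hk]
          rw [sum_mul_ite]
          have e1 : (univ.filter fun y => h k x = g k l y ∧ f j y = f k w')
              = univ.filter fun y => g k l y = h k x ∧ f j y = f k w' := by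
            ext z; simp [eq_comm]
          rw [e1, hc.GF j k (fun h => hk h.symm)]
          simp [hk]
      rw [Finset.sum_congr rfl fun k _ => e k, sum_ite_card, card_ne, hc.cardJ]
      ring
    rw [s1, s2]
    simp only [wt, reduceCtorEq, if_false]; ring
  · -- second, first
    have s1 : ∑ z : L × X, adj h g f (.inr (i, w)) (.inl z) * adj h g f (.inl z) (.inl (l', x'))
        = 2 * m * (4 * m + 4) := by
      rw [Fintype.sum_prod_type]
      have e : ∀ k, ∑ y : X, adj h g f (.inr (i, w)) (.inl (k, y))
            * adj h g f (.inl (k, y)) (.inl (l', x'))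
          = if k ≠ l' then 2 * m else 0 := by
        intro k
        simp only [adj]
        rw [← Finset.sum_mul]
        rw [sum_ite_card, hc.H1]
        by_cases h1 : k = l'
        · subst h1; simp
        · simp [h1]
      rw [Finset.sum_congr rfl fun k _ => e k, sum_ite_card, card_ne, hc.cardL]
      ring
    have s2 : ∑ z : J × W, adj h g f (.inr (i, w)) (.inr z) * adj h g f (.inr z) (.inl (l', x'))
        = 2 * m * (4 * m - 2) := by
      rw [Fintype.sum_prod_type]
      have e : ∀ k, ∑ y : W, adj h g f (.inr (i, w)) (.inr (k, y))
            * adj h g f (.inr (k, y)) (.inl (l', x'))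
          = if k ≠ i then 2 * m else 0 := by
        intro k
        by_cases hk : k = i
        · subst hk; simp [adj]
        · have hk' : ¬ i = k := fun h => hk h.symm
          simp only [adj, if_neg hk']
          rw [sum_mul_ite]
          have e1 : (univ.filter fun y => f k w = f i y ∧ h k x' = g k l' y)
              = univ.filter fun y => g k l' y = h k x' ∧ f i y = f k w := by
            ext z; simp only [mem_filter, mem_univ, true_and]
            constructor
            · rintro ⟨h1, h2⟩; exact ⟨h2.symm, h1.symm⟩
            · rintro ⟨h1, h2⟩; exact ⟨h2.symm, h1.symm⟩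
          rw [e1, hc.GF i k hk']
          simp [hk]
      rw [Finset.sum_congr rfl fun k _ => e k, sum_ite_card, card_ne, hc.cardJ]
      ring
    rw [s1, s2]
    simp only [wt, reduceCtorEq, if_false]; ring
  · -- both of the second kind
    rw [sq21 h g f hc, sq22 h g f hc]
    by_cases hij : i = j
    · subst hij
      rw [if_pos rfl, if_pos rfl]
      by_cases hw : w = w'
      · subst hw
        simp only [and_true, Finset.filter_true, Finset.card_univ, wt, if_true]
        rw [card_ne, hc.cardJ, hc.cardL]
        ring
      · have : ¬ ((Sum.inr (i, w) : (L × X) ⊕ (J × W)) = Sum.inr (i, w')) := by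
          simp [hw]
        rw [if_neg this]
        have hT := hc.T i w w' hw
        simp only [wt]
        linear_combination (2 * m) * hT
    · have : ¬ ((Sum.inr (i, w) : (L × X) ⊕ (J × W)) = Sum.inr (j, w')) := by
        simp [hij]
      rw [if_neg hij, if_neg hij, if_neg this]
      simp only [wt]; ring

/-- The weighted row sums. -/
theorem rowsum (u : (L × X) ⊕ (J × W)) :
    ∑ z, adj h g f u z * wt z = 4 * m * (8 * m + 3) * wt u := by
  rw [Fintype.sum_sum_type]
  rcases u with ⟨l, x⟩ | ⟨i, w⟩
  · have s1 : ∑ z : L × X, adj h g f (.inl (l, x)) (.inl z) * wt (.inl z : (L × X) ⊕ (J × W))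
        = 8 * m * (4 * m + 4) := by
      rw [Fintype.sum_prod_type]
      have e : ∀ k, ∑ y : X, adj h g f (.inl (l, x)) (.inl (k, y))
            * wt (.inl (k, y) : (L × X) ⊕ (J × W)) = if k ≠ l then 8 * m else 0 := by
        intro k
        simp only [adj, wt]
        rw [Finset.sum_const, Finset.card_univ, nsmul_eq_mul, hc.cardX]
        by_cases h1 : k = l
        · subst h1; simp
        · have h1' : ¬ l = k := fun h => h1 h.symm
          simp only [h1', if_false, ne_eq, h1, not_false_eq_true, if_true]; ring
      rw [Finset.sum_congr rfl fun k _ => e k, sum_ite_card, card_ne, hc.cardL]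
      ring
    have s2 : ∑ z : J × W, adj h g f (.inl (l, x)) (.inr z) * wt (.inr z : (L × X) ⊕ (J × W))
        = 8 * m * (4 * m - 1) := by
      rw [Fintype.sum_prod_type]
      have e : ∀ k, ∑ y : W, adj h g f (.inl (l, x)) (.inr (k, y))
            * wt (.inr (k, y) : (L × X) ⊕ (J × W)) = 8 * m := by
        intro k
        simp only [adj, wt, mul_one]
        rw [sum_ite_card]
        have e1 : (univ.filter fun y => h k x = g k l y) = univ.filter fun y => g k l y = h k x := by
          ext z; simp [eq_comm]
        rw [e1, hc.G1]; ring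
      rw [Finset.sum_congr rfl fun k _ => e k, Finset.sum_const, Finset.card_univ, nsmul_eq_mul,
          hc.cardJ]
      ring
    rw [s1, s2]; simp only [wt]; ring
  · have s1 : ∑ z : L × X, adj h g f (.inr (i, w)) (.inl z) * wt (.inl z : (L × X) ⊕ (J × W))
        = 4 * m * (4 * m + 5) := by
      rw [Fintype.sum_prod_type]
      have e : ∀ k, ∑ y : X, adj h g f (.inr (i, w)) (.inl (k, y))
            * wt (.inl (k, y) : (L × X) ⊕ (J × W)) = 4 * m := by
        intro k
        simp only [adj, wt]
        rw [← Finset.sum_mul, sum_ite_card, hc.H1]; ring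
      rw [Finset.sum_congr rfl fun k _ => e k, Finset.sum_const, Finset.card_univ, nsmul_eq_mul,
          hc.cardL]
      ring
    have s2 : ∑ z : J × W, adj h g f (.inr (i, w)) (.inr z) * wt (.inr z : (L × X) ⊕ (J × W))
        = 4 * m * (4 * m - 2) := by
      rw [Fintype.sum_prod_type]
      have e : ∀ k, ∑ y : W, adj h g f (.inr (i, w)) (.inr (k, y))
            * wt (.inr (k, y) : (L × X) ⊕ (J × W)) = if k ≠ i then 4 * m else 0 := by
        intro k
        by_cases hk : k = i
        · subst hk; simp [adj]
        · have hk' : ¬ i = k := fun h => hk h.symm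
          simp only [adj, wt, mul_one, if_neg hk']
          rw [sum_ite_card]
          have e1 : (univ.filter fun y => f k w = f i y)
              = univ.filter fun y => f i y = f k w := by
            ext z; simp [eq_comm]
          rw [e1, hc.F1]
          simp [hk]
      rw [Finset.sum_congr rfl fun k _ => e k, sum_ite_card, card_ne, hc.cardJ]
      ring
    rw [s1, s2]; simp only [wt]; ring

end

end Q119.CR
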