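import Mathlib
import Pool.Agent.Q119.CR.Coherent
import Pool.Agent.Q119.CR.Graph

set_option autoImplicit false

namespace Q119.CR

open Finset Matrix

theorem mem_spec {n : Type} [Fintype n] [DecidableEq n] (A : Matrix n n ℝ) (μ : ℝ) :
    μ ∈ spectrum ℝ A ↔ ∃ v : n → ℝ, v ≠ 0 ∧ A *ᵥ v = μ • v := by
  rw [spectrum.mem_iff, Matrix.isUnit_iff_isUnit_det, isUnit_iff_ne_zero, not_not,
    ← Matrix.exists_mulVec_eq_zero_iff]
  constructor
  · rintro ⟨v, hv, h⟩
    refine ⟨v, hv, ?_⟩
    rw [Matrix.sub_mulVec, sub_eq_zero] at h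
    rw [← h, Matrix.algebraMap_eq_diagonal]
    ext i; simp [Matrix.mulVec_diagonal]
  · rintro ⟨v, hv, h⟩
    refine ⟨v, hv, ?_⟩
    rw [Matrix.sub_mulVec, h, sub_eq_zero, Matrix.algebraMap_eq_diagonal]
    ext i; simp [Matrix.mulVec_diagonal]

section
variable {m : ℤ} {L X J W F : Type} [Fintype L] [Fintype X] [Fintype J] [Fintype W]
    [DecidableEq L] [DecidableEq X] [DecidableEq J] [DecidableEq W] [DecidableEq F]
    (h : J → X → ZMod 2) (g : J → L → W → ZMod 2) (f : J → W → F)

omit [Fintype L] [Fintype X] [Fintype J] [Fintype W] [DecidableEq X] [DecidableEq W] in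
theorem adj_symm (u v : (L × X) ⊕ (J × W)) : adj h g f u v = adj h g f v u := by
  rcases u with ⟨l, x⟩ | ⟨i, w⟩ <;> rcases v with ⟨l', x'⟩ | ⟨j, w'⟩ <;> simp only [adj, eq_comm]

omit [Fintype L] [Fintype X] [Fintype J] [Fintype W] [DecidableEq X] [DecidableEq W] in
theorem adj_self (u : (L × X) ⊕ (J × W)) : adj h g f u u = 0 := by
  rcases u with ⟨l, x⟩ | ⟨i, w⟩ <;> simp [adj]

omit [Fintype L] [Fintype X] [Fintype J] [Fintype W] [DecidableEq X] [DecidableEq W] in
theorem adj_01 (u v : (L × X) ⊕ (J × W)) : adj h g f u v = 0 ∨ adj h g f u v = 1 := by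
  rcases u with ⟨l, x⟩ | ⟨i, w⟩ <;> rcases v with ⟨l', x'⟩ | ⟨j, w'⟩ <;> simp only [adj]
  · by_cases hl : l = l' <;> simp [hl]
  · by_cases hl : h j x = g j l w' <;> simp [hl]
  · by_cases hl : h i x' = g i l' w <;> simp [hl]
  · by_cases hl : i = j
    · simp [hl]
    · by_cases hf : f j w = f i w' <;> simp [hl, hf]

/-- The graph. -/
def graph : SimpleGraph ((L × X) ⊕ (J × W)) where
  Adj u v := adj h g f u v = 1
  symm := ⟨by intro u v huv; rwa [adj_symm]⟩
  loopless := ⟨by intro u hu; rw [adj_self] at hu; exact absurd hu (by norm_num)⟩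

instance : DecidableRel (graph (X := X) h g f).Adj := fun u v =>
  inferInstanceAs (Decidable (adj h g f u v = 1))

theorem adjMatrix_apply' (R : Type) [Ring R] (u v : (L × X) ⊕ (J × W)) :
    (graph h g f).adjMatrix R u v = ((adj h g f u v : ℤ) : R) := by
  rw [SimpleGraph.adjMatrix_apply]
  rcases adj_01 h g f u v with h0 | h1
  · rw [if_neg, h0]
    · simp
    · show ¬ adj h g f u v = 1
      rw [h0]; norm_num
  · rw [if_pos, h1]
    · simp
    · exact h1

theorem sq_apply (hc : Cells m L X J W F h g f) (R : Type) [Ring R] (u v : (L × X) ⊕ (J × W)) :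
    ((graph h g f).adjMatrix R * (graph h g f).adjMatrix R) u v
      = (((if u = v then 16 * m ^ 2 else 0) + 2 * m * (4 * m + 1) * (wt u * wt v) : ℤ) : R) := by
  rw [← sq h g f hc u v, Matrix.mul_apply]
  push_cast
  refine Finset.sum_congr rfl fun z _ => ?_
  rw [adjMatrix_apply', adjMatrix_apply']

theorem wt_pos (u : (L × X) ⊕ (J × W)) : 0 < wt u := by
  rcases u with ⟨l, x⟩ | ⟨i, w⟩ <;> simp [wt]

theorem connected (hc : Cells m L X J W F h g f) : (graph h g f).Connected := by
  have hX : Nonempty X := by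
    rw [← Fintype.card_pos_iff]; have := hc.cardX; have := hc.mpos; omega
  have hL : Nonempty L := by
    rw [← Fintype.card_pos_iff]; have := hc.cardL; have := hc.mpos; omega
  have hpre : (graph h g f).Preconnected := by
    intro u v
    by_cases huv : u = v
    · subst huv; exact SimpleGraph.Reachable.refl _
    have hs := sq h g f hc u v
    rw [if_neg huv, zero_add] at hs
    have hpos : 0 < ∑ z, adj h g f u z * adj h g f z v := by
      rw [hs]
      have := hc.mpos; have := wt_pos u; have := wt_pos v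
      positivity
    obtain ⟨z, -, hz⟩ := Finset.exists_ne_zero_of_sum_ne_zero hpos.ne'
    have h1 : adj h g f u z = 1 := by
      rcases adj_01 h g f u z with h0 | h1
      · rw [h0] at hz; simp at hz
      · exact h1
    have h2 : adj h g f z v = 1 := by
      rcases adj_01 h g f z v with h0 | h1
      · rw [h0] at hz; simp at hz
      · exact h1
    have a1 : (graph h g f).Adj u z := h1
    have a2 : (graph h g f).Adj z v := h2
    exact a1.reachable.trans a2.reachable
  have : Nonempty ((L × X) ⊕ (J × W)) := ⟨.inl (hL.some, hX.some)⟩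
  exact ⟨hpre⟩

theorem spectrum_ncard (hc : Cells m L X J W F h g f) :
    (spectrum ℝ ((graph h g f).adjMatrix ℝ)).ncard = 3 := by
  have hm : (0 : ℝ) < m := by exact_mod_cast hc.mpos
  set A := (graph (X := X) h g f).adjMatrix ℝ with hA
  set β : ((L × X) ⊕ (J × W)) → ℝ := fun u => ((wt u : ℤ) : ℝ) with hβ
  have hAsymm : Aᵀ = A := by rw [hA]; exact SimpleGraph.transpose_adjMatrix _
  have hAβ : A *ᵥ β = (4 * (m : ℝ) * (8 * m + 3)) • β := by
    ext u
    have := rowsum h g f hc u
    simp only [Matrix.mulVec, dotProduct, Pi.smul_apply, smul_eq_mul, hβ]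
    have e : ∀ z, A u z * ((wt z : ℤ) : ℝ) = ((adj h g f u z * wt z : ℤ) : ℝ) := by
      intro z; rw [hA, adjMatrix_apply']; push_cast; ring
    rw [Finset.sum_congr rfl fun z _ => e z, ← Int.cast_sum, this]
    push_cast; ring
  have hA2 : ∀ v, A *ᵥ (A *ᵥ v)
      = (16 * (m : ℝ) ^ 2) • v + (2 * (m : ℝ) * (4 * m + 1) * (β ⬝ᵥ v)) • β := by
    intro v
    rw [Matrix.mulVec_mulVec]
    ext u
    simp only [Matrix.mulVec, dotProduct, Pi.add_apply, Pi.smul_apply, smul_eq_mul]
    have e : ∀ z, (A * A) u z * v z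
        = (if u = z then 16 * (m : ℝ) ^ 2 * v z else 0)
          + 2 * (m : ℝ) * (4 * m + 1) * β u * (β z * v z) := by
      intro z
      rw [hA, sq_apply h g f hc]
      by_cases huz : u = z
      · rw [if_pos huz, if_pos huz]; push_cast; simp only [hβ]; ring
      · rw [if_neg huz, if_neg huz]; push_cast; simp only [hβ]; ring
    rw [Finset.sum_congr rfl fun z _ => e z, Finset.sum_add_distrib, ← Finset.mul_sum,
      Finset.sum_ite_eq]
    simp only [mem_univ, if_true]
    ring
  have hset : spectrum ℝ A = {4 * (m : ℝ) * (8 * m + 3), 4 * (m : ℝ), -(4 * (m : ℝ))} := by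
    ext μ
    rw [mem_spec]
    simp only [Set.mem_insert_iff, Set.mem_singleton_iff]
    constructor
    · rintro ⟨v, hv, hAv⟩
      have h1 : (4 * (m : ℝ) * (8 * m + 3)) * (β ⬝ᵥ v) = μ * (β ⬝ᵥ v) := by
        have e1 : β ⬝ᵥ (A *ᵥ v) = (A *ᵥ β) ⬝ᵥ v := by
          rw [Matrix.dotProduct_mulVec, ← Matrix.mulVec_transpose, hAsymm]
        rw [hAv, hAβ, dotProduct_smul, smul_dotProduct, smul_eq_mul, smul_eq_mul] at e1
        exact e1.symm
      by_cases hb : β ⬝ᵥ v = 0
      · right
        have h2 := hA2 v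
        rw [hAv, Matrix.mulVec_smul, hAv, hb, mul_zero, zero_smul, add_zero, smul_smul] at h2
        have h3 : (μ * μ - 16 * (m : ℝ) ^ 2) • v = 0 := by
          rw [sub_smul, h2, sub_self]
        rcases smul_eq_zero.mp h3 with h4 | h4
        · have h5 : (μ - 4 * m) * (μ + 4 * m) = 0 := by linear_combination h4
          rcases mul_eq_zero.mp h5 with h6 | h6
          · left; linarith
          · right; linarith
        · exact absurd h4 hv
      · left
        exact (mul_right_cancel₀ hb h1).symm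
    · have hX2 : 1 < Fintype.card X := by have := hc.cardX; have := hc.mpos; omega
      have hL : Nonempty L := by
        rw [← Fintype.card_pos_iff]; have := hc.cardL; have := hc.mpos; omega
      obtain ⟨x, x', hxx⟩ := Fintype.exists_pair_of_one_lt_card hX2
      let p : (L × X) ⊕ (J × W) := .inl (hL.some, x)
      let p' : (L × X) ⊕ (J × W) := .inl (hL.some, x')
      have hpp : p ≠ p' := by simp [p, p', hxx]
      have hb : β p = β p' := rfl
      have hadj : A p p' = 0 := by
        rw [hA, adjMatrix_apply']; simp [adj, p, p']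
      have hadj' : A p p = 0 := by
        rw [hA, adjMatrix_apply', adj_self]; simp
      let z : ((L × X) ⊕ (J × W)) → ℝ := Pi.single p 1 - Pi.single p' 1
      have hz : β ⬝ᵥ z = 0 := by
        simp only [z, dotProduct_sub, dotProduct_single, mul_one, hb, sub_self]
      have hAzp : (A *ᵥ z) p = 0 := by
        simp only [z, Matrix.mulVec_sub, Pi.sub_apply, Matrix.mulVec_single_one,
          Matrix.col_apply, hadj, hadj', sub_zero]
      have hzp : z p = 1 := by
        simp [z, Pi.single_eq_of_ne hpp]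
      have hA2z := hA2 z
      rw [hz, mul_zero, zero_smul, add_zero] at hA2z
      rintro (rfl | rfl | rfl)
      · refine ⟨β, ?_, hAβ⟩
        intro h0
        have := congrFun h0 p
        simp [hβ, wt, p] at this
      · refine ⟨A *ᵥ z + (4 * (m : ℝ)) • z, ?_, ?_⟩
        · intro h0
          have := congrFun h0 p
          simp only [Pi.add_apply, Pi.smul_apply, smul_eq_mul, hAzp, hzp, Pi.zero_apply] at this
          linarith
        · rw [Matrix.mulVec_add, hA2z, Matrix.mulVec_smul]
          ext u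
          simp only [Pi.add_apply, Pi.smul_apply, smul_eq_mul]
          ring
      · refine ⟨A *ᵥ z - (4 * (m : ℝ)) • z, ?_, ?_⟩
        · intro h0
          have := congrFun h0 p
          simp only [Pi.sub_apply, Pi.smul_apply, smul_eq_mul, hAzp, hzp, Pi.zero_apply] at this
          linarith
        · rw [Matrix.mulVec_sub, hA2z, Matrix.mulVec_smul]
          ext u
          simp only [Pi.sub_apply, Pi.smul_apply, smul_eq_mul]
          ring
  rw [hset]
  have h1 : (4 * (m : ℝ) * (8 * m + 3)) ≠ 4 * m := by nlinarith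
  have h2 : (4 * (m : ℝ) * (8 * m + 3)) ≠ -(4 * m) := by nlinarith
  have h3 : (4 * (m : ℝ)) ≠ -(4 * m) := by linarith
  rw [Set.ncard_insert_of_notMem (by simp [h1, h2]), Set.ncard_insert_of_notMem (by simpa using h3),
    Set.ncard_singleton]

/-- The projector onto the vertices of the second kind. -/
noncomputable def E2 : Matrix ((L × X) ⊕ (J × W)) ((L × X) ⊕ (J × W)) ℂ :=
  Matrix.diagonal fun u => match u with
    | .inl _ => 0
    | .inr _ => 1

theorem E2_mem (hc : Cells m L X J W F h g f) :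
    (E2 : Matrix ((L × X) ⊕ (J × W)) ((L × X) ⊕ (J × W)) ℂ) ∈ coherentClosure (graph h g f) := by
  obtain ⟨hcoh, hA⟩ := isCoherent_closure (graph (X := X) h g f)
  have hD := hcoh.hadamard_mem _ (hcoh.mul_mem _ hA _ hA) _ hcoh.one_mem
  have hm : (m : ℂ) ≠ 0 := by exact_mod_cast hc.mpos.ne'
  have hm2 : (4 * (m : ℂ) + 1) ≠ 0 := by
    have : (4 * m + 1 : ℤ) ≠ 0 := by have := hc.mpos; omega
    exact_mod_cast this
  have hE : (E2 : Matrix ((L × X) ⊕ (J × W)) ((L × X) ⊕ (J × W)) ℂ)
      = (1 / 3 : ℂ) • ((4 : ℂ) • (1 : Matrix _ _ ℂ)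
        - (1 / (2 * (m : ℂ) * (4 * m + 1))) •
          (Matrix.hadamard ((graph h g f).adjMatrix ℂ * (graph h g f).adjMatrix ℂ) 1
            - (16 * (m : ℂ) ^ 2) • (1 : Matrix _ _ ℂ))) := by
    ext u v
    simp only [Matrix.smul_apply, Matrix.sub_apply, Matrix.hadamard_apply, smul_eq_mul, E2]
    rw [sq_apply h g f hc]
    by_cases huv : u = v
    · subst huv
      rw [Matrix.one_apply_eq, Matrix.diagonal_apply_eq, if_pos rfl]
      rcases u with ⟨l, x⟩ | ⟨i, w⟩
      · simp only [wt]; push_cast; field_simp; ring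
      · simp only [wt]; push_cast; field_simp; ring
    · rw [Matrix.one_apply_ne huv, Matrix.diagonal_apply_ne _ huv]; simp
  rw [hE]
  exact Submodule.smul_mem _ _ (Submodule.sub_mem _ (Submodule.smul_mem _ _ hcoh.one_mem)
    (Submodule.smul_mem _ _ (Submodule.sub_mem _ hD (Submodule.smul_mem _ _ hcoh.one_mem))))

theorem le_rank (hc : Cells m L X J W F h g f) (k : ℕ) (i : J) (e : Fin k → W × W)
    (he : Function.Injective fun a =>
      (univ.filter fun j => j ≠ i ∧ f j (e a).1 = f j (e a).2).card) :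
    k ≤ coherentRank (graph (X := X) h g f) := by
  obtain ⟨hcoh, hA⟩ := isCoherent_closure (graph (X := X) h g f)
  have hE := E2_mem (X := X) h g f hc
  set A := (graph (X := X) h g f).adjMatrix ℂ with hAdef
  have hB := hcoh.mul_mem _ (hcoh.mul_mem _ hE _ hA) _ hE
  have hM := hcoh.mul_mem _ hB _ hB
  refine le_finrank hcoh hM k (fun a => (.inr (i, (e a).1), .inr (i, (e a).2))) ?_
  set B : Matrix ((L × X) ⊕ (J × W)) ((L × X) ⊕ (J × W)) ℂ := E2 * A * E2 with hBdef
  have hBapp : ∀ u v, B u v
      = (match u with | .inl _ => 0 | .inr _ => 1) * A u v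
        * (match v with | .inl _ => 0 | .inr _ => 1) := by
    intro u v
    rw [hBdef]
    unfold E2
    rw [Matrix.mul_diagonal, Matrix.diagonal_mul]
  have key : ∀ w w', (B * B) (.inr (i, w)) (.inr (i, w'))
      = 4 * (m : ℂ) * ((univ.filter fun j => j ≠ i ∧ f j w = f j w').card : ℂ) := by
    intro w w'
    rw [Matrix.mul_apply, Fintype.sum_sum_type]
    have z1 : ∑ z : L × X, B (.inr (i, w)) (.inl z) * B (.inl z) (.inr (i, w')) = 0 := by
      refine Finset.sum_eq_zero fun z _ => ?_
      rw [hBapp, hBapp]; simp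
    have z2 : ∑ z : J × W, B (.inr (i, w)) (.inr z) * B (.inr z) (.inr (i, w'))
        = 4 * (m : ℂ) * ((univ.filter fun j => j ≠ i ∧ f j w = f j w').card : ℂ) := by
      have hs := sq22 (L := L) (X := X) h g f hc i i w w'
      rw [if_pos rfl] at hs
      have hs' := congrArg (fun t : ℤ => (t : ℂ)) hs
      push_cast at hs'
      rw [← hs']
      refine Finset.sum_congr rfl fun z _ => ?_
      rw [hBapp, hBapp, hAdef, adjMatrix_apply', adjMatrix_apply']
      simp
    rw [z1, z2, zero_add]
  intro a b hab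
  simp only [] at hab
  rw [key, key] at hab
  have hm : (4 * (m : ℂ)) ≠ 0 := by
    have : (4 * m : ℤ) ≠ 0 := by have := hc.mpos; omega
    exact_mod_cast this
  have h1 := mul_left_cancel₀ hm hab
  exact he (by exact_mod_cast h1)

end

end Q119.CR
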