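import Mathlib
import Pool.Agent.Q119.CR.Spec

set_option autoImplicit false

namespace Q119.CR

open Finset Matrix

/-- The fibres of a surjective homomorphism. -/
theorem fiber_card {A B : Type} [AddCommGroup A] [Fintype A] [AddCommGroup B] [Fintype B]
    [DecidableEq B] (φ : A →+ B) (hφ : Function.Surjective φ) (s : B) :
    (univ.filter fun a => φ a = s).card * Fintype.card B = Fintype.card A := by
  classical
  have h1 : ∀ t : B, (univ.filter fun a => φ a = t).card = (univ.filter fun a => φ a = s).card := by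
    intro t
    obtain ⟨a0, ha0⟩ := hφ (s - t)
    refine Finset.card_bij (fun a _ => a + a0) ?_ ?_ ?_
    · intro a ha
      simp only [mem_filter, mem_univ, true_and] at ha ⊢
      rw [map_add, ha, ha0]; abel
    · intro a _ b _ hab; exact add_right_cancel hab
    · intro b hb
      simp only [mem_filter, mem_univ, true_and] at hb
      refine ⟨b - a0, ?_, by abel⟩
      simp only [mem_filter, mem_univ, true_and]
      rw [map_sub, hb, ha0]; abel
  have h2 : Fintype.card A = ∑ t : B, (univ.filter fun a => φ a = t).card := by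
    rw [← Finset.card_univ]
    exact Finset.card_eq_sum_card_fiberwise (fun a _ => mem_univ (φ a))
  rw [h2, Finset.sum_congr rfl fun t _ => h1 t, Finset.sum_const, Finset.card_univ, smul_eq_mul,
    mul_comm]

section
variable {F : Type} [Field F] [Fintype F] [DecidableEq F] {n : Type} [Fintype n] [DecidableEq n]

/-- The functional `w ↦ u ⬝ᵥ w`. -/
def dotHom (u : n → F) : (n → F) →+ F where
  toFun w := u ⬝ᵥ w
  map_zero' := by simp
  map_add' := by intro a b; exact dotProduct_add u a b

omit [Fintype F] [DecidableEq F] [DecidableEq n] in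
theorem dotHom_apply (u w : n → F) : dotHom u w = u ⬝ᵥ w := rfl

omit [Fintype F] [DecidableEq F] in
theorem surj1 (u : n → F) (hu : u ≠ 0) (s : F) : ∃ w, u ⬝ᵥ w = s := by
  obtain ⟨a, ha⟩ := Function.ne_iff.mp hu
  refine ⟨Pi.single a (s / u a), ?_⟩
  rw [dotProduct_single]
  have : u a ≠ 0 := ha
  field_simp

omit [Fintype F] [DecidableEq F] in
theorem surj2 (u v : n → F) (hu : u ≠ 0) (hv : ∀ c : F, v ≠ c • u) (s t : F) :
    ∃ w, u ⬝ᵥ w = s ∧ v ⬝ᵥ w = t := by
  obtain ⟨a, ha⟩ := Function.ne_iff.mp hu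
  have ha' : u a ≠ 0 := ha
  have hne : v - (v a / u a) • u ≠ 0 := by
    intro h0; exact hv _ (sub_eq_zero.mp h0)
  obtain ⟨b, hb⟩ := Function.ne_iff.mp hne
  have hb' : v b - v a / u a * u b ≠ 0 := by simpa using hb
  have hab : b ≠ a := by
    rintro rfl; apply hb'; field_simp; ring
  set d := v b - v a / u a * u b with hd
  set β := (t - v a / u a * s) / d with hβ
  refine ⟨Pi.single b β + Pi.single a ((s - u b * β) / u a), ?_, ?_⟩
  · rw [dotProduct_add, dotProduct_single, dotProduct_single]
    field_simp; ring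
  · rw [dotProduct_add, dotProduct_single, dotProduct_single]
    have h1 : d * β = t - v a / u a * s := by rw [hβ]; field_simp
    have h2 : v b = d + v a / u a * u b := by rw [hd]; ring
    rw [h2]
    field_simp
    field_simp at h1
    linear_combination h1

end

section
variable {F : Type} [Field F] [Fintype F] [DecidableEq F] (hF : Fintype.card F = 4)
  (χ : F →+ ZMod 2) (hχ : Function.Surjective χ)
include hF hχ

theorem chi_card (s : ZMod 2) : (univ.filter fun c => χ c = s).card = 2 := by
  have h := fiber_card χ hχ s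
  rw [hF, ZMod.card] at h; omega

theorem chi_mul_card (a : F) (ha : a ≠ 0) : (univ.filter fun c => χ (c * a) = 0).card = 2 := by
  refine (Finset.card_bij (fun c _ => c * a) ?_ ?_ ?_).trans (chi_card hF χ hχ 0)
  · intro c hc; simpa using hc
  · intro c _ d _ hcd; exact mul_right_cancel₀ ha hcd
  · intro b hb
    refine ⟨b / a, ?_, by field_simp⟩
    simp only [mem_filter, mem_univ, true_and] at hb ⊢
    rw [div_mul_cancel₀ _ ha]; exact hb

theorem chi_pair_surj (c : F) (hc0 : c ≠ 0) (hc1 : c ≠ 1) (s t : ZMod 2) :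
    ∃ x, χ x = s ∧ χ (c * x) = t := by
  let φ : F →+ ZMod 2 × ZMod 2 :=
    χ.prod (χ.comp (AddMonoidHom.mulLeft c))
  have hinj : Function.Injective φ := by
    rw [injective_iff_map_eq_zero]
    intro x hx
    by_contra hx0
    have h1 : χ x = 0 := congrArg Prod.fst hx
    have h2 : χ (c * x) = 0 := congrArg Prod.snd hx
    have hsub : ({0, x, c * x} : Finset F) ⊆ univ.filter fun c => χ c = 0 := by
      intro y hy
      simp only [mem_insert, mem_singleton] at hy
      simp only [mem_filter, mem_univ, true_and]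
      rcases hy with rfl | rfl | rfl
      · exact map_zero χ
      · exact h1
      · exact h2
    have hcard : ({0, x, c * x} : Finset F).card = 3 := by
      rw [Finset.card_eq_three]
      refine ⟨0, x, c * x, fun h => hx0 h.symm, fun h => ?_, fun h => ?_, rfl⟩
      · rcases mul_eq_zero.mp h.symm with h' | h'
        · exact hc0 h'
        · exact hx0 h'
      · exact hc1 (mul_right_cancel₀ hx0 (by rw [one_mul]; exact h.symm))
    have := Finset.card_le_card hsub
    rw [hcard, chi_card hF χ hχ] at this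
    omega
  have hbij : Function.Bijective φ := by
    rw [Fintype.bijective_iff_injective_and_card]
    refine ⟨hinj, ?_⟩
    rw [hF, Fintype.card_prod, ZMod.card]
  obtain ⟨x, hx⟩ := hbij.2 (s, t)
  exact ⟨x, congrArg Prod.fst hx, congrArg Prod.snd hx⟩

variable {n : Type} [Fintype n] [DecidableEq n]

theorem chi1_card (u : n → F) (hu : u ≠ 0) (s : ZMod 2) :
    (univ.filter fun w : n → F => χ (u ⬝ᵥ w) = s).card * 2 = Fintype.card (n → F) := by
  have hs : Function.Surjective (χ.comp (dotHom u)) := by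
    intro t
    obtain ⟨y, hy⟩ := hχ t
    obtain ⟨w, hw⟩ := surj1 u hu y
    exact ⟨w, by simp only [AddMonoidHom.comp_apply, dotHom_apply]; rw [hw, hy]⟩
  have h := fiber_card _ hs s
  rw [ZMod.card] at h
  exact h

theorem chi2_card (u v : n → F) (hu : u ≠ 0) (hv : v ≠ 0) (huv : u ≠ v) (s t : ZMod 2) :
    (univ.filter fun w : n → F => χ (u ⬝ᵥ w) = s ∧ χ (v ⬝ᵥ w) = t).card * 4
      = Fintype.card (n → F) := by
  have hs : Function.Surjective ((χ.comp (dotHom u)).prod (χ.comp (dotHom v))) := by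
    rintro ⟨s, t⟩
    by_cases hprop : ∀ c : F, v ≠ c • u
    · obtain ⟨y, hy⟩ := hχ s
      obtain ⟨z, hz⟩ := hχ t
      obtain ⟨w, hw1, hw2⟩ := surj2 u v hu hprop y z
      refine ⟨w, ?_⟩
      show (χ (u ⬝ᵥ w), χ (v ⬝ᵥ w)) = (s, t)
      rw [hw1, hw2, hy, hz]
    · push Not at hprop
      obtain ⟨c, rfl⟩ := hprop
      have hc0 : c ≠ 0 := by rintro rfl; exact hv (zero_smul _ _)
      have hc1 : c ≠ 1 := by rintro rfl; exact huv (one_smul _ _).symm
      obtain ⟨x, hx1, hx2⟩ := chi_pair_surj hF χ hχ c hc0 hc1 s t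
      obtain ⟨w, hw⟩ := surj1 u hu x
      refine ⟨w, ?_⟩
      show (χ (u ⬝ᵥ w), χ ((c • u) ⬝ᵥ w)) = (s, t)
      rw [smul_dotProduct, hw, smul_eq_mul, hx1, hx2]
  have h := fiber_card _ hs (s, t)
  rw [Fintype.card_prod, ZMod.card] at h
  rw [← h]
  congr 2
  ext w
  simp only [mem_filter, mem_univ, true_and]
  constructor
  · rintro ⟨h1, h2⟩
    show (χ (u ⬝ᵥ w), χ (v ⬝ᵥ w)) = (s, t)
    rw [h1, h2]
  · intro h'
    exact ⟨congrArg Prod.fst h', congrArg Prod.snd h'⟩

omit hχ in
theorem dot1_card (u : n → F) (hu : u ≠ 0) (s : F) :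
    (univ.filter fun w : n → F => u ⬝ᵥ w = s).card * 4 = Fintype.card (n → F) := by
  have hs : Function.Surjective (dotHom u) := fun t => surj1 u hu t
  have h := fiber_card _ hs s
  rw [hF] at h
  exact h

omit hχ in
theorem dot2_card (u v : n → F) (hu : u ≠ 0) (hv : ∀ c : F, v ≠ c • u) (s t : F) :
    (univ.filter fun w : n → F => u ⬝ᵥ w = s ∧ v ⬝ᵥ w = t).card * 16 = Fintype.card (n → F) := by
  have hs : Function.Surjective ((dotHom u).prod (dotHom v)) := by
    rintro ⟨s, t⟩
    obtain ⟨w, h1, h2⟩ := surj2 u v hu hv s t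
    exact ⟨w, by show (u ⬝ᵥ w, v ⬝ᵥ w) = (s, t); rw [h1, h2]⟩
  have h := fiber_card _ hs (s, t)
  rw [Fintype.card_prod, hF] at h
  rw [← h]
  congr 2
  ext w
  simp only [mem_filter, mem_univ, true_and]
  constructor
  · rintro ⟨h1, h2⟩
    show (u ⬝ᵥ w, v ⬝ᵥ w) = (s, t)
    rw [h1, h2]
  · intro h'
    exact ⟨congrArg Prod.fst h', congrArg Prod.snd h'⟩

theorem chidot_card (u v : n → F) (hv0 : v ≠ 0) (hu : ∀ c : F, u ≠ c • v) (s : ZMod 2) (t : F) :
    (univ.filter fun w : n → F => χ (u ⬝ᵥ w) = s ∧ v ⬝ᵥ w = t).card * 8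
      = Fintype.card (n → F) := by
  have hs : Function.Surjective ((χ.comp (dotHom u)).prod (dotHom v)) := by
    rintro ⟨s, t⟩
    obtain ⟨y, hy⟩ := hχ s
    obtain ⟨w, h1, h2⟩ := surj2 v u hv0 hu t y
    exact ⟨w, by show (χ (u ⬝ᵥ w), v ⬝ᵥ w) = (s, t); rw [h1, h2, hy]⟩
  have h := fiber_card _ hs (s, t)
  rw [Fintype.card_prod, hF, ZMod.card] at h
  rw [← h]
  congr 2
  ext w
  simp only [mem_filter, mem_univ, true_and]
  constructor
  · rintro ⟨h1, h2⟩
    show (χ (u ⬝ᵥ w), v ⬝ᵥ w) = (s, t)
    rw [h1, h2]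
  · intro h'
    exact ⟨congrArg Prod.fst h', congrArg Prod.snd h'⟩

end

/-! ### The cells -/

section
variable {F : Type} [Field F] [Fintype F] [DecidableEq F] (hF : Fintype.card F = 4)
  (χ : F →+ ZMod 2) (hχ : Function.Surjective χ)
  {ι : Type} [Fintype ι] [DecidableEq ι]

/-- The labels of the cells of the second kind. -/
abbrev JJ (F ι : Type) [Field F] := {y : ι → F // y ≠ 0}

variable (v : JJ F ι → (Option ι → F)) (hv0 : ∀ j, v j ≠ 0)
  (hvp : ∀ i j, i ≠ j → ∀ c : F, v j ≠ c • v i)

/-- The functionals left over at the cell `i` of the second kind. -/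
def Left (i : JJ F ι) (u : Option ι → F) : Prop := u ≠ 0 ∧ ∀ j, j ≠ i → ∀ c : F, u ≠ c • v j

include hv0 hvp in
theorem sum_partition (i : JJ F ι) (φ : (Option ι → F) → ℤ) [DecidablePred (Left v i)] :
    ∑ u, φ u = φ 0 + ∑ j ∈ univ.filter (fun j => j ≠ i), ∑ c ∈ univ.filter (fun c : F => c ≠ 0),
      φ (c • v j) + ∑ u ∈ univ.filter (Left v i), φ u := by
  classical
  rw [← Finset.sum_filter_add_sum_filter_not univ (Left v i) φ, add_comm]
  congr 1
  rw [← Finset.sum_product']
  set P : Finset (JJ F ι × F) := (univ.filter fun j => j ≠ i) ×ˢ (univ.filter fun c : F => c ≠ 0)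
    with hP
  have hinj : Set.InjOn (fun p : JJ F ι × F => p.2 • v p.1) (P : Set (JJ F ι × F)) := by
    rintro ⟨j, c⟩ hj ⟨k, d⟩ hk hjk
    simp only [hP, coe_product, Set.mem_prod, coe_filter, mem_univ, true_and,
      Set.mem_ofPred_eq] at hj hk
    simp only at hjk
    by_cases hjk' : j = k
    · subst hjk'
      have : (c - d) • v j = 0 := by rw [sub_smul, hjk, sub_self]
      rcases smul_eq_zero.mp this with h1 | h1
      · rw [sub_eq_zero.mp h1]
      · exact absurd h1 (hv0 j)
    · exfalso
      refine hvp j k hjk' (d⁻¹ * c) ?_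
      rw [mul_smul, hjk, smul_smul, inv_mul_cancel₀ hk.2, one_smul]
  have hset : (univ.filter fun u => ¬ Left v i u)
      = insert 0 (P.image fun p => p.2 • v p.1) := by
    ext u
    rw [mem_filter]
    simp only [mem_univ, true_and, mem_insert, mem_image, hP, mem_product, mem_filter,
      Prod.exists]
    constructor
    · intro h
      by_cases hu : u = 0
      · left; exact hu
      · right
        by_contra hcon
        apply h
        refine ⟨hu, fun j hj c huc => hcon ⟨j, c, ⟨hj, ?_⟩, huc.symm⟩⟩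
        rintro rfl
        rw [zero_smul] at huc
        exact hu huc
    · rintro (h | ⟨j, c, ⟨hj, -⟩, hjc⟩) ⟨h1, h2⟩
      · exact h1 h
      · exact h2 j hj c hjc.symm
  have h0 : (0 : Option ι → F) ∉ P.image fun p => p.2 • v p.1 := by
    simp only [mem_image, hP, mem_product, mem_filter, mem_univ, true_and, Prod.exists, not_exists,
      not_and]
    rintro j c ⟨-, hc⟩ h0
    rcases smul_eq_zero.mp h0 with h1 | h1
    · exact hc h1
    · exact hv0 j h1
  rw [hset, Finset.sum_insert h0, Finset.sum_image hinj]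

theorem card_J (m : ℤ) (hm : (Fintype.card (ι → F) : ℤ) = 4 * m) :
    (Fintype.card (JJ F ι) : ℤ) = 4 * m - 1 := by
  rw [Fintype.card_subtype, card_ne, hm]

include hF in
theorem card_W (m : ℤ) (hm : (Fintype.card (ι → F) : ℤ) = 4 * m) :
    (Fintype.card (Option ι → F) : ℤ) = 16 * m := by
  rw [Fintype.card_fun, Fintype.card_option, pow_succ, hF]
  rw [Fintype.card_fun, hF] at hm
  push_cast at hm ⊢
  linarith

theorem card_units (hF : Fintype.card F = 4) :
    (univ.filter fun c : F => c ≠ 0).card = 3 := by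
  have : (univ.filter fun c : F => c ≠ 0) = univ.erase 0 := by ext; simp
  rw [this, Finset.card_erase_of_mem (mem_univ _), Finset.card_univ, hF]

include hF hv0 hvp in
theorem card_left (m : ℤ) (hm : (Fintype.card (ι → F) : ℤ) = 4 * m) (i : JJ F ι)
    [DecidablePred (Left v i)] :
    ((univ.filter (Left v i)).card : ℤ) = 4 * m + 5 := by
  have h := sum_partition v hv0 hvp i (fun _ => 1)
  simp only [Finset.sum_const, Finset.card_univ, nsmul_eq_mul, mul_one, card_units hF] at h
  rw [card_W hF m hm, card_ne, card_J m hm] at h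
  push_cast at h
  linarith

end

end Q119.CR
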