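import Mathlib
import Pool.Agent.Q119.CR.Inst

set_option autoImplicit false

namespace Q119.CR

open Finset Matrix

section
variable {F : Type} [Field F] [Fintype F] [DecidableEq F] (hF : Fintype.card F = 4)
  (χ : F →+ ZMod 2) (hχ : Function.Surjective χ)
  {ι : Type} [Fintype ι] [DecidableEq ι]
  (v : JJ F ι → (Option ι → F)) (hv0 : ∀ j, v j ≠ 0)
  (hvp : ∀ i j, i ≠ j → ∀ c : F, v j ≠ c • v i)

include hF hχ hv0 hvp in
theorem T_lemma (m : ℤ) (hm : (Fintype.card (ι → F) : ℤ) = 4 * m) (i : JJ F ι)
    [DecidablePred (Left v i)] (δ : Option ι → F) (hδ : δ ≠ 0) :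
    2 * ((univ.filter fun j => j ≠ i ∧ v j ⬝ᵥ δ = 0).card : ℤ)
      + ((univ.filter fun u => Left v i u ∧ χ (u ⬝ᵥ δ) = 0).card : ℤ) = 4 * m + 1 := by
  have h := sum_partition v hv0 hvp i (fun u => if χ (u ⬝ᵥ δ) = 0 then 1 else 0)
  simp only [zero_dotProduct, map_zero, if_true] at h
  have e1 : ∑ u : Option ι → F, (if χ (u ⬝ᵥ δ) = 0 then (1 : ℤ) else 0) = 8 * m := by
    rw [sum_ite_card, one_mul]
    have h1 := chi1_card hF χ hχ δ hδ 0
    have h2 : (univ.filter fun w : Option ι → F => χ (w ⬝ᵥ δ) = 0)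
        = univ.filter fun w => χ (δ ⬝ᵥ w) = 0 := by
      ext w; rw [mem_filter, mem_filter, dotProduct_comm]
    rw [h2]
    have h3 := card_W (ι := ι) hF m hm
    rw [← h1] at h3
    push_cast at h3
    linarith
  have e2 : ∀ j, ∑ c ∈ univ.filter (fun c : F => c ≠ 0),
      (if χ ((c • v j) ⬝ᵥ δ) = 0 then (1 : ℤ) else 0)
      = 1 + (if v j ⬝ᵥ δ = 0 then 2 else 0) := by
    intro j
    rw [← Finset.sum_filter, Finset.sum_const, nsmul_eq_mul, mul_one]
    by_cases hj : v j ⬝ᵥ δ = 0
    · rw [if_pos hj]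
      have : ((univ.filter fun c : F => c ≠ 0).filter fun c => χ ((c • v j) ⬝ᵥ δ) = 0)
          = univ.filter fun c : F => c ≠ 0 := by
        ext c
        simp only [mem_filter, mem_univ, true_and, smul_dotProduct, hj, smul_zero, map_zero,
          and_true]
      rw [this, card_units hF]; norm_num
    · rw [if_neg hj]
      have h1 := chi_mul_card hF χ hχ (v j ⬝ᵥ δ) hj
      have h2 : ((univ.filter fun c : F => c ≠ 0).filter fun c => χ ((c • v j) ⬝ᵥ δ) = 0)
          = (univ.filter fun c => χ (c * (v j ⬝ᵥ δ)) = 0).erase 0 := by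
        ext c
        simp only [mem_filter, mem_univ, true_and, smul_dotProduct, smul_eq_mul, mem_erase]
      rw [h2, Finset.card_erase_of_mem (by simp), h1]; norm_num
  rw [e1, Finset.sum_congr rfl fun j _ => e2 j, Finset.sum_add_distrib, Finset.sum_const,
    nsmul_eq_mul, mul_one, card_ne, card_J m hm] at h
  have e3 : ∑ j ∈ univ.filter (fun j : JJ F ι => j ≠ i), (if v j ⬝ᵥ δ = 0 then (2 : ℤ) else 0)
      = 2 * ((univ.filter fun j => j ≠ i ∧ v j ⬝ᵥ δ = 0).card : ℤ) := by
    rw [← Finset.sum_filter, Finset.sum_const, nsmul_eq_mul, Finset.filter_filter]; ring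
  have e4 : ∑ u ∈ univ.filter (Left v i), (if χ (u ⬝ᵥ δ) = 0 then (1 : ℤ) else 0)
      = ((univ.filter fun u => Left v i u ∧ χ (u ⬝ᵥ δ) = 0).card : ℤ) := by
    rw [← Finset.sum_filter, Finset.sum_const, nsmul_eq_mul, Finset.filter_filter]; ring
  rw [e3, e4] at h
  linarith

/-- The functionals of the cells of the first kind. -/
def hh (χ : F →+ ZMod 2) (j : JJ F ι) (x : ι → F) : ZMod 2 := χ (j.1 ⬝ᵥ x)

/-- The maps of the cells of the second kind. -/
def ff (j : JJ F ι) (w : Option ι → F) : F := v j ⬝ᵥ w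

/-- The functionals of the cells of the second kind. -/
def gg (χ : F →+ ZMod 2) {N : ℕ} (e : ∀ i : JJ F ι, Fin N ≃ {u // Left v i u}) (i : JJ F ι)
    (l : Fin N) (w : Option ι → F) : ZMod 2 := χ ((e i l).1 ⬝ᵥ w)

include hF hχ hv0 hvp in
theorem cells (m : ℤ) (hmpos : 0 < m) (hm : (Fintype.card (ι → F) : ℤ) = 4 * m)
    {N : ℕ} (hN : (N : ℤ) = 4 * m + 5) (e : ∀ i : JJ F ι, Fin N ≃ {u // Left v i u}) :
    Cells m (Fin N) (ι → F) (JJ F ι) (Option ι → F) F (hh χ) (gg v χ e) (ff v) := by
  have hW := card_W (ι := ι) hF m hm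
  have he : ∀ i l, Left v i (e i l).1 := fun i l => (e i l).2
  refine ⟨hmpos, hm, by rw [Fintype.card_fin]; exact hN, card_J m hm, ?_, ?_, ?_, ?_, ?_, ?_, ?_,
    ?_, ?_⟩
  · intro i s
    have h : (univ.filter fun x => hh χ i x = s).card * 2 = Fintype.card (ι → F) :=
      chi1_card hF χ hχ i.1 i.2 s
    rw [← h] at hm; push_cast at hm
    linarith
  · intro i j hij s t
    have h : (univ.filter fun x => hh χ i x = s ∧ hh χ j x = t).card * 4 = Fintype.card (ι → F) :=
      chi2_card hF χ hχ i.1 j.1 i.2 j.2 (fun h => hij (Subtype.ext h)) s t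
    rw [← h] at hm; push_cast at hm
    linarith
  · intro x x' hxx
    have hd : x - x' ≠ 0 := sub_ne_zero.mpr hxx
    have h := chi1_card hF χ hχ (x - x') hd 0
    have h2 : (univ.filter fun i : JJ F ι => hh χ i x = hh χ i x').card
        = ((univ.filter fun w : ι → F => χ ((x - x') ⬝ᵥ w) = 0).erase 0).card := by
      rw [← Finset.card_map (Function.Embedding.subtype _)]
      congr 1
      ext w
      simp only [mem_map, mem_filter, mem_univ, true_and, Function.Embedding.subtype_apply,
        mem_erase]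
      constructor
      · rintro ⟨⟨a, ha⟩, h1, rfl⟩
        have h1' : χ (a ⬝ᵥ x) = χ (a ⬝ᵥ x') := h1
        refine ⟨ha, ?_⟩
        show χ ((x - x') ⬝ᵥ a) = 0
        rw [dotProduct_comm, dotProduct_sub, map_sub, h1', sub_self]
      · rintro ⟨h1, h3⟩
        refine ⟨⟨w, h1⟩, ?_, rfl⟩
        show χ (w ⬝ᵥ x) = χ (w ⬝ᵥ x')
        rw [dotProduct_comm, dotProduct_sub, map_sub] at h3
        exact sub_eq_zero.mp h3
    rw [h2, Finset.card_erase_of_mem (by simp)]
    have h3 : (((univ.filter fun w : ι → F => χ ((x - x') ⬝ᵥ w) = 0).card : ℕ) : ℤ) = 2 * m := by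
      rw [← h] at hm; push_cast at hm; linarith
    omega
  · intro i l s
    have h : (univ.filter fun w => gg v χ e i l w = s).card * 2 = Fintype.card (Option ι → F) :=
      chi1_card hF χ hχ (e i l).1 (he i l).1 s
    rw [← h] at hW; push_cast at hW
    linarith
  · intro i l l' hll s t
    have h : (univ.filter fun w => gg v χ e i l w = s ∧ gg v χ e i l' w = t).card * 4
        = Fintype.card (Option ι → F) := chi2_card hF χ hχ (e i l).1 (e i l').1 (he i l).1
      (he i l').1 (fun h => hll ((e i).injective (Subtype.ext h))) s t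
    rw [← h] at hW; push_cast at hW
    linarith
  · intro i j w
    have h : (univ.filter fun w' => ff v i w' = ff v j w).card * 4 = Fintype.card (Option ι → F) :=
      dot1_card hF (v i) (hv0 i) (ff v j w)
    rw [← h] at hW; push_cast at hW
    linarith
  · intro i j hij l s k w
    have h : (univ.filter fun w' => gg v χ e j l w' = s ∧ ff v i w' = ff v k w).card * 8
        = Fintype.card (Option ι → F) :=
      chidot_card hF χ hχ (e j l).1 (v i) (hv0 i) ((he j l).2 i hij) s (ff v k w)
    rw [← h] at hW; push_cast at hW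
    linarith
  · intro i j hij k w w'
    have h : (univ.filter fun z => ff v i z = ff v k w ∧ ff v j z = ff v k w').card * 16
        = Fintype.card (Option ι → F) :=
      dot2_card hF (v i) (v j) (hv0 i) (hvp i j hij) (ff v k w) (ff v k w')
    rw [← h] at hW; push_cast at hW
    linarith
  · intro i w w' hww
    classical
    have hd : w - w' ≠ 0 := sub_ne_zero.mpr hww
    have h := T_lemma hF χ hχ v hv0 hvp m hm i (w - w') hd
    have e1 : (univ.filter fun j => j ≠ i ∧ ff v j w = ff v j w')
        = univ.filter fun j => j ≠ i ∧ v j ⬝ᵥ (w - w') = 0 := by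
      ext j
      simp only [mem_filter, mem_univ, true_and]
      rw [dotProduct_sub, sub_eq_zero]; rfl
    have e2 : (univ.filter fun l => gg v χ e i l w = gg v χ e i l w').card
        = (univ.filter fun u => Left v i u ∧ χ (u ⬝ᵥ (w - w')) = 0).card := by
      refine Finset.card_bij (fun l _ => (e i l).1) ?_ ?_ ?_
      · intro l hl
        simp only [mem_filter, mem_univ, true_and] at hl ⊢
        have hl' : χ ((e i l).1 ⬝ᵥ w) = χ ((e i l).1 ⬝ᵥ w') := hl
        refine ⟨he i l, ?_⟩
        rw [dotProduct_sub, map_sub, hl', sub_self]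
      · intro l _ l' _ hll
        exact (e i).injective (Subtype.ext hll)
      · intro u hu
        simp only [mem_filter, mem_univ, true_and] at hu
        refine ⟨(e i).symm ⟨u, hu.1⟩, ?_, ?_⟩
        · simp only [mem_filter, mem_univ, true_and]
          show χ ((e i ((e i).symm ⟨u, hu.1⟩)).1 ⬝ᵥ w) = χ ((e i ((e i).symm ⟨u, hu.1⟩)).1 ⬝ᵥ w')
          rw [Equiv.apply_symm_apply]
          have h3 := hu.2
          rw [dotProduct_sub, map_sub] at h3
          exact sub_eq_zero.mp h3
        · simp only [Equiv.apply_symm_apply]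
    rw [e1, e2]; exact h

include hF hv0 hvp in
theorem exists_equiv (m : ℤ) (hm : (Fintype.card (ι → F) : ℤ) = 4 * m)
    {N : ℕ} (hN : (N : ℤ) = 4 * m + 5) :
    Nonempty (∀ i : JJ F ι, Fin N ≃ {u // Left v i u}) := by
  classical
  refine ⟨fun i => (Fintype.equivFinOfCardEq ?_).symm⟩
  rw [Fintype.card_subtype]
  have := card_left hF v hv0 hvp m hm i
  rw [← hN] at this
  exact_mod_cast this

end

/-! ### The special choice of the vectors -/

section
variable {F : Type} [Field F] [Fintype F] [DecidableEq F] (hF : Fintype.card F = 4) (M : ℕ)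

/-- the special labels -/
def sp (F : Type) [Field F] {M : ℕ} (a : Fin M) : (Fin M ⊕ Fin M) → F := Pi.single (.inr a) 1

open Classical in
/-- The vectors: `(1, y)` for most labels `y`, and `M` unit vectors for the special labels. -/
noncomputable def vv (j : JJ F (Fin M ⊕ Fin M)) : Option (Fin M ⊕ Fin M) → F :=
  if h : ∃ a, j.1 = sp F a then Pi.single (some (.inl h.choose)) 1
  else fun o => o.elim 1 j.1

theorem sp_inj {a b : Fin M} (h : sp F a = sp F b) : a = b := by
  by_contra hab
  have h1 := congrFun h (.inr a)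
  rw [sp, sp, Pi.single_eq_same, Pi.single_eq_of_ne (by simpa using hab)] at h1
  exact one_ne_zero h1

theorem vv_sp (j : JJ F (Fin M ⊕ Fin M)) (a : Fin M) (h : j.1 = sp F a) :
    vv M j = Pi.single (some (.inl a)) 1 := by
  have hex : ∃ a, j.1 = sp F a := ⟨a, h⟩
  have : hex.choose = a := sp_inj M (hex.choose_spec.symm.trans h)
  rw [vv, dif_pos hex, this]

theorem vv_ns (j : JJ F (Fin M ⊕ Fin M)) (h : ¬ ∃ a, j.1 = sp F a) :
    vv M j = fun o => o.elim 1 j.1 := by
  rw [vv, dif_neg h]

theorem vv_ne (j : JJ F (Fin M ⊕ Fin M)) : vv M j ≠ 0 := by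
  intro h0
  by_cases h : ∃ a, j.1 = sp F a
  · obtain ⟨a, ha⟩ := h
    rw [vv_sp M j a ha] at h0
    have := congrFun h0 (some (.inl a))
    rw [Pi.single_eq_same] at this
    exact one_ne_zero this
  · rw [vv_ns M j h] at h0
    exact one_ne_zero (congrFun h0 none)

theorem vv_prop (i j : JJ F (Fin M ⊕ Fin M)) (hij : i ≠ j) (c : F) : vv M j ≠ c • vv M i := by
  intro h0
  by_cases hi : ∃ a, i.1 = sp F a
  · obtain ⟨a, ha⟩ := hi
    rw [vv_sp M i a ha] at h0
    by_cases hj : ∃ a, j.1 = sp F a
    · obtain ⟨b, hb⟩ := hj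
      rw [vv_sp M j b hb] at h0
      have h1 := congrFun h0 (some (.inl b))
      rw [Pi.single_eq_same, Pi.smul_apply] at h1
      have hab : a = b := by
        by_contra hab
        rw [Pi.single_eq_of_ne, smul_zero] at h1
        · exact one_ne_zero h1
        · intro h2
          simp only [Option.some.injEq, Sum.inl.injEq] at h2
          exact hab h2.symm
      apply hij
      apply Subtype.ext
      rw [ha, hb, hab]
    · rw [vv_ns M j hj] at h0
      have h1 := congrFun h0 none
      rw [Pi.smul_apply, Pi.single_eq_of_ne (by simp), smul_zero] at h1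
      exact one_ne_zero h1
  · rw [vv_ns M i hi] at h0
    by_cases hj : ∃ a, j.1 = sp F a
    · obtain ⟨b, hb⟩ := hj
      rw [vv_sp M j b hb] at h0
      have h1 := congrFun h0 none
      rw [Pi.smul_apply, Pi.single_eq_of_ne (by simp)] at h1
      simp only [Option.elim_none, smul_eq_mul, mul_one] at h1
      subst h1
      rw [zero_smul] at h0
      have h2 := congrFun h0 (some (.inl b))
      rw [Pi.single_eq_same] at h2
      exact one_ne_zero h2
    · rw [vv_ns M j hj] at h0
      have h1 := congrFun h0 none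
      simp only [Option.elim_none, Pi.smul_apply, smul_eq_mul, mul_one] at h1
      subst h1
      rw [one_smul] at h0
      apply hij
      apply Subtype.ext
      funext o
      exact (congrFun h0 (some o)).symm

/-- The test differences. -/
def dd (F : Type) [Field F] (M : ℕ) (k : Fin M) : Option (Fin M ⊕ Fin M) → F :=
  fun o => o.elim 1 (fun s => s.elim (fun a => if a ≤ k then 1 else 0) (fun _ => 0))

/-- The part of the test differences without the first coordinate. -/
def ss (F : Type) [Field F] (M : ℕ) (k : Fin M) : Fin M ⊕ Fin M → F :=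
  fun s => s.elim (fun a => if a ≤ k then 1 else 0) (fun _ => 0)

theorem vv_sp_dot (j : JJ F (Fin M ⊕ Fin M)) (a : Fin M) (h : j.1 = sp F a) (k : Fin M) :
    vv M j ⬝ᵥ dd F M k = if a ≤ k then 1 else 0 := by
  rw [vv_sp M j a h, single_dotProduct, one_mul]; rfl

theorem vv_ns_dot (j : JJ F (Fin M ⊕ Fin M)) (h : ¬ ∃ a, j.1 = sp F a) (k : Fin M) :
    vv M j ⬝ᵥ dd F M k = 1 + ss F M k ⬝ᵥ j.1 := by
  rw [vv_ns M j h, dotProduct, Fintype.sum_option]
  simp only [Option.elim_none, Option.elim_some, dd, mul_one, dotProduct, ss]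
  congr 1
  exact Finset.sum_congr rfl fun x _ => mul_comm _ _

include hF in
theorem count (m : ℤ) (hm : (Fintype.card ((Fin M ⊕ Fin M) → F) : ℤ) = 4 * m)
    (i : JJ F (Fin M ⊕ Fin M)) (a0 : Fin M) (ha0 : ∀ k, a0 ≤ k) (hi : i.1 = sp F a0) (k : Fin M) :
    ((univ.filter fun j => j ≠ i ∧ vv M j ⬝ᵥ dd F M k = 0).card : ℤ) = m + (M - 1 - (k : ℕ)) := by
  classical
  have hs0 : ss F M k ≠ 0 := by
    intro h0
    have := congrFun h0 (.inl k)
    simp [ss] at this
  have hA := dot1_card hF (ss F M k) hs0 (-1)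
  set A : Finset ((Fin M ⊕ Fin M) → F) := univ.filter fun w => ss F M k ⬝ᵥ w = -1 with hAdef
  set B : Finset ((Fin M ⊕ Fin M) → F) := (univ.filter fun a : Fin M => k < a).image (sp F)
    with hBdef
  have hdisj : Disjoint A B := by
    rw [Finset.disjoint_left]
    intro w hw hw'
    simp only [hBdef, mem_image, mem_filter, mem_univ, true_and] at hw'
    obtain ⟨a, -, rfl⟩ := hw'
    simp only [hAdef, mem_filter, mem_univ, true_and, sp, dotProduct_single, mul_one, ss,
      Sum.elim_inr] at hw
    have : (1 : F) = 0 := by linear_combination hw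
    exact one_ne_zero this
  have hBcard : B.card = M - 1 - (k : ℕ) := by
    rw [hBdef, Finset.card_image_of_injective _ (fun a b h => sp_inj M h)]
    have : (univ.filter fun a : Fin M => k < a) = Finset.Ioi k := by ext; simp
    rw [this, Fin.card_Ioi]
  have hcard : (univ.filter fun j => j ≠ i ∧ vv M j ⬝ᵥ dd F M k = 0).card = (A ∪ B).card := by
    rw [← Finset.card_map (Function.Embedding.subtype _)]
    congr 1
    ext w
    simp only [mem_map, mem_filter, mem_univ, true_and, Function.Embedding.subtype_apply,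
      mem_union, hAdef, hBdef, mem_image]
    constructor
    · rintro ⟨j, ⟨hji, hj⟩, rfl⟩
      by_cases hsp : ∃ a, j.1 = sp F a
      · obtain ⟨a, ha⟩ := hsp
        rw [vv_sp_dot M j a ha] at hj
        right
        refine ⟨a, ?_, ha.symm⟩
        by_contra hka
        rw [if_pos (not_lt.mp hka)] at hj
        exact one_ne_zero hj
      · left
        rw [vv_ns_dot M j hsp] at hj
        linear_combination hj
    · rintro (h | ⟨a, hka, rfl⟩)
      · have hw0 : w ≠ 0 := by
          rintro rfl
          rw [dotProduct_zero] at h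
          have : (1 : F) = 0 := by linear_combination h
          exact one_ne_zero this
        have hns : ¬ ∃ a, w = sp F a := by
          rintro ⟨a, rfl⟩
          simp only [sp, dotProduct_single, mul_one, ss, Sum.elim_inr] at h
          have : (1 : F) = 0 := by linear_combination h
          exact one_ne_zero this
        refine ⟨⟨w, hw0⟩, ⟨?_, ?_⟩, rfl⟩
        · rintro rfl
          exact hns ⟨a0, hi⟩
        · rw [vv_ns_dot M ⟨w, hw0⟩ hns]
          rw [h]; ring
      · have hne : sp F a ≠ 0 := by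
          intro h0
          have := congrFun h0 (.inr a)
          rw [sp, Pi.single_eq_same] at this
          exact one_ne_zero this
        refine ⟨⟨sp F a, hne⟩, ⟨?_, ?_⟩, rfl⟩
        · rintro rfl
          have : a = a0 := sp_inj M hi
          subst this
          exact absurd (ha0 k) (not_le.mpr hka)
        · rw [vv_sp_dot M ⟨sp F a, hne⟩ a rfl, if_neg (not_le.mpr hka)]
  rw [hcard, Finset.card_union_of_disjoint hdisj, hBcard]
  have hAc : (A.card : ℤ) = m := by
    rw [← hA] at hm; push_cast at hm; linarith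
  have hk := k.2
  push_cast
  rw [hAc]
  omega

include hF in
theorem exists_graph (χ : F →+ ZMod 2) (hχ : Function.Surjective χ) (hM : 1 ≤ M) :
    ∃ (X : Type) (_ : Fintype X) (_ : DecidableEq X) (G : SimpleGraph X)
      (_ : DecidableRel G.Adj), G.Connected ∧ (spectrum ℝ (G.adjMatrix ℝ)).ncard = 3 ∧
        M ≤ coherentRank G := by
  classical
  have hcard : Fintype.card ((Fin M ⊕ Fin M) → F) = 4 ^ (2 * M) := by
    rw [Fintype.card_fun, hF, Fintype.card_sum, Fintype.card_fin]; congr 1; ring
  obtain ⟨m, hm⟩ : ∃ m : ℕ, 4 ^ (2 * M) = 4 * m :=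
    ⟨4 ^ (2 * M - 1), by rw [← pow_succ']; congr 1; omega⟩
  have hmpos : 0 < m := by
    rcases Nat.eq_zero_or_pos m with h0 | h0
    · rw [h0] at hm; simp at hm
    · exact h0
  have hmZ : (Fintype.card ((Fin M ⊕ Fin M) → F) : ℤ) = 4 * (m : ℤ) := by
    rw [hcard, hm]; push_cast; ring
  have hN : ((4 * m + 5 : ℕ) : ℤ) = 4 * (m : ℤ) + 5 := by push_cast; ring
  obtain ⟨e⟩ := exists_equiv hF (vv (F := F) M) (vv_ne M) (vv_prop M) (m : ℤ) hmZ hN
  have hc := cells hF χ hχ (vv (F := F) M) (vv_ne M) (vv_prop M) (m : ℤ)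
    (by exact_mod_cast hmpos) hmZ hN e
  refine ⟨_, inferInstance, inferInstance, graph (hh χ) (gg (vv M) χ e) (ff (vv M)), inferInstance,
    connected _ _ _ hc, spectrum_ncard _ _ _ hc, ?_⟩
  let a0 : Fin M := ⟨0, hM⟩
  have ha0 : ∀ k, a0 ≤ k := fun k => by simp [a0, Fin.le_def]
  have hne : sp F a0 ≠ 0 := by
    intro h0
    have := congrFun h0 (.inr a0)
    rw [sp, Pi.single_eq_same] at this
    exact one_ne_zero this
  refine le_rank _ _ _ hc M ⟨sp F a0, hne⟩ (fun k => (dd F M k, 0)) ?_
  intro k l hkl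
  have e1 : ∀ k : Fin M, ((univ.filter fun j : JJ F (Fin M ⊕ Fin M) => j ≠ ⟨sp F a0, hne⟩ ∧
      ff (vv M) j (dd F M k) = ff (vv M) j 0).card : ℤ) = (m : ℤ) + (M - 1 - (k : ℕ)) := by
    intro k
    rw [← count hF M (m : ℤ) hmZ ⟨sp F a0, hne⟩ a0 ha0 rfl k]
    congr 2
    ext j
    simp only [mem_filter, mem_univ, true_and, ff, dotProduct_zero]
  have hkl' := congrArg (fun t : ℕ => (t : ℤ)) hkl
  simp only [] at hkl'
  rw [e1 k, e1 l] at hkl'
  apply Fin.ext
  omega

end

/-- The field with four elements and a surjective additive map onto the field with two elements. -/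
theorem exists_field : ∃ (F : Type) (_ : Field F) (_ : Fintype F) (_ : DecidableEq F)
    (χ : F →+ ZMod 2), Fintype.card F = 4 ∧ Function.Surjective χ := by
  classical
  let F := GaloisField 2 2
  letI : Fintype F := Fintype.ofFinite F
  have hcard : Fintype.card F = 4 := by
    have h := GaloisField.card 2 2 (by norm_num)
    rw [Nat.card_eq_fintype_card] at h
    exact h
  have hlt : (⊥ : Submodule (ZMod 2) F) < ⊤ := bot_lt_top
  obtain ⟨φ, hφ, -⟩ := Submodule.exists_le_ker_of_lt_top _ hlt
  have hs : Function.Surjective φ := by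
    obtain ⟨x, hx⟩ := DFunLike.ne_iff.mp hφ
    intro t
    refine ⟨(t / φ x) • x, ?_⟩
    have : φ x ≠ 0 := hx
    rw [map_smul, smul_eq_mul, div_mul_cancel₀ _ this]
  exact ⟨F, inferInstance, inferInstance, inferInstance, φ.toAddMonoidHom, hcard, hs⟩

/-- For every `N` there is a connected graph with exactly three distinct eigenvalues whose coherent
rank is at least `N`. -/
theorem main (N : ℕ) : ∃ (X : Type) (_ : Fintype X) (_ : DecidableEq X) (G : SimpleGraph X)
    (_ : DecidableRel G.Adj), G.Connected ∧ (spectrum ℝ (G.adjMatrix ℝ)).ncard = 3 ∧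
      N ≤ coherentRank G := by
  obtain ⟨F, _, _, _, χ, hF, hχ⟩ := exists_field
  obtain ⟨X, i1, i2, G, i3, h1, h2, h3⟩ := exists_graph hF (max N 1) χ hχ (le_max_right _ _)
  exact ⟨X, i1, i2, G, i3, h1, h2, le_trans (le_max_left _ _) h3⟩

end Q119.CR
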